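import Pool.Agent.K7.H12.UI.Defs

/-!
# Jobs DIFF and BOTH1 of project UI
-/

set_option autoImplicit false

namespace Pool.Agent.K7.H81.UI

open Pool.Agent.K7.H12.UI

variable {X V : Type} [Finite X] [Finite V]

omit [Finite X] [Finite V] in
theorem mu_congr {F : SimpleGraph X} {G : SimpleGraph V} {E E' : (X → V) → Prop}
    (h : ∀ φ, E φ ↔ E' φ) : mu F G E = mu F G E' := by
  have : E = E' := funext fun φ => propext (h φ)
  rw [this]

omit [Finite X] [Finite V] in
/-- comparison by a permutation -/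
theorem mu_eq_of_perm {F : SimpleGraph X} {G G' : SimpleGraph V} {E E' : (X → V) → Prop}
    (τ : Equiv.Perm V) (h : ∀ φ, φ ∈ homs F G E ↔ ⇑τ ∘ φ ∈ homs F G' E') :
    mu F G E = mu F G' E' := by
  have h1 : homs F G' E' = (fun φ : X → V => ⇑τ ∘ φ) '' homs F G E := by
    ext ψ
    constructor
    · intro hψ
      have h2 : ⇑τ ∘ (⇑τ.symm ∘ ψ) = ψ := by
        funext x
        simp
      exact ⟨⇑τ.symm ∘ ψ, (h _).2 (by rw [h2]; exact hψ), h2⟩
    · rintro ⟨φ, hφ, rfl⟩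
      exact (h φ).1 hφ
  have h3 : Function.Injective (fun φ : X → V => ⇑τ ∘ φ) := by
    intro φ ψ hh
    funext x
    exact τ.injective (congrFun hh x)
  unfold mu
  rw [h1, Set.ncard_image_of_injective _ h3]

theorem mu_mono' {F : SimpleGraph X} {G G' : SimpleGraph V} {E E' : (X → V) → Prop}
    (τ : Equiv.Perm V) (h : ∀ φ, φ ∈ homs F G E → ⇑τ ∘ φ ∈ homs F G' E') :
    mu F G E ≤ mu F G' E' := by
  have h3 : Function.Injective (fun φ : X → V => ⇑τ ∘ φ) := by
    intro φ ψ hh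
    funext x
    exact τ.injective (congrFun hh x)
  have h1 : (homs F G E).ncard ≤ (homs F G' E').ncard := by
    rw [← Set.ncard_image_of_injective (homs F G E) h3]
    refine Set.ncard_le_ncard ?_ (Set.toFinite _)
    rintro _ ⟨φ, hφ, rfl⟩
    exact h φ hφ
  unfold mu
  gcongr

theorem mu_split (F : SimpleGraph X) (G : SimpleGraph V) (E P : (X → V) → Prop) :
    mu F G E = mu F G (fun φ => E φ ∧ ¬ P φ) + mu F G (fun φ => E φ ∧ P φ) := by
  have h1 : homs F G E = homs F G (fun φ => E φ ∧ ¬ P φ) ∪ homs F G (fun φ => E φ ∧ P φ) := by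
    ext φ
    constructor
    · rintro ⟨h1, h2, h3⟩
      by_cases h : P φ
      · exact Or.inr ⟨h1, h2, h3, h⟩
      · exact Or.inl ⟨h1, h2, h3, h⟩
    · rintro (⟨h1, h2, h3, h4⟩ | ⟨h1, h2, h3, h4⟩)
      · exact ⟨h1, h2, h3⟩
      · exact ⟨h1, h2, h3⟩
  have h2 : Disjoint (homs F G (fun φ => E φ ∧ ¬ P φ)) (homs F G (fun φ => E φ ∧ P φ)) := by
    rw [Set.disjoint_left]
    rintro φ ⟨_, _, _, h⟩ ⟨_, _, _, h'⟩
    exact h h'
  unfold mu
  rw [h1, Set.ncard_union_eq h2 (Set.toFinite _) (Set.toFinite _), Nat.cast_add, add_div]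

omit [Finite V] in
theorem upd_self (G : SimpleGraph V) (v : V) : upd G v (nb G v) = G := by
  ext a b
  constructor
  · rintro (⟨_, _, h⟩ | ⟨rfl, _, h⟩ | ⟨rfl, _, h⟩)
    · exact h
    · exact h
    · exact h.symm
  · intro h
    by_cases ha : a = v
    · subst ha
      exact Or.inr (Or.inl ⟨rfl, h.ne', h⟩)
    · by_cases hb : b = v
      · subst hb
        exact Or.inr (Or.inr ⟨rfl, ha, h.symm⟩)
      · exact Or.inl ⟨ha, hb, h⟩

open Classical in
omit [Finite X] [Finite V] in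
/-- the part that avoids the other vertex -/
theorem mu_E1_swap (F : SimpleGraph X) (G : SimpleGraph V) (R : Set X) (Z : Set V) {v v' : V}
    (hv : v ≠ v') (hvZ : v ∉ Z) (hv'Z : v' ∉ Z) :
    mu F G (E1 R Z v' v) = mu F (upd G v (nb G v')) (E1 R Z v v') := by
  refine mu_eq_of_perm (Equiv.swap v v') fun φ => ?_
  have hZ : Av Z (⇑(Equiv.swap v v') ∘ φ) ↔ Av Z φ := by
    have key : ∀ z ∈ Z, z ∈ Set.range (⇑(Equiv.swap v v') ∘ φ) ↔ z ∈ Set.range φ := by
      intro z hz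
      have h1 : z ≠ v := fun h => hvZ (h ▸ hz)
      have h2 : z ≠ v' := fun h => hv'Z (h ▸ hz)
      constructor
      · rintro ⟨x, hx⟩
        refine ⟨x, ?_⟩
        have := congrArg (Equiv.swap v v') hx
        simp only [Function.comp_apply, Equiv.swap_apply_self] at this
        rw [this, Equiv.swap_apply_of_ne_of_ne h1 h2]
      · rintro ⟨x, hx⟩
        exact ⟨x, by rw [Function.comp_apply, hx, Equiv.swap_apply_of_ne_of_ne h1 h2]⟩
    exact ⟨fun h z hz hr => h z hz ((key z hz).2 hr), fun h z hz hr => h z hz ((key z hz).1 hr)⟩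
  have hAt : At R v (⇑(Equiv.swap v v') ∘ φ) ↔ At R v' φ := by
    constructor
    · rintro ⟨x, hx, h⟩
      refine ⟨x, hx, ?_⟩
      have := congrArg (Equiv.swap v v') h
      simpa using this
    · rintro ⟨x, hx, h⟩
      exact ⟨x, hx, by simp [h]⟩
  have hr : v' ∉ Set.range (⇑(Equiv.swap v v') ∘ φ) ↔ v ∉ Set.range φ := by
    rw [not_iff_not]
    constructor
    · rintro ⟨x, hx⟩
      refine ⟨x, ?_⟩
      have := congrArg (Equiv.swap v v') hx
      simpa using this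
    · rintro ⟨x, hx⟩
      exact ⟨x, by simp [hx]⟩
  have hinj : Function.Injective (⇑(Equiv.swap v v') ∘ φ) ↔ Function.Injective φ :=
    ⟨fun h => Function.Injective.of_comp h, fun h => (Equiv.injective _).comp h⟩
  have hadj : v ∉ Set.range φ → Function.Injective φ → ∀ x y, F.Adj x y →
      (G.Adj (φ x) (φ y) ↔ (upd G v (nb G v')).Adj ((⇑(Equiv.swap v v') ∘ φ) x)
        ((⇑(Equiv.swap v v') ∘ φ) y)) := by
    intro h hi x y hxy
    have hx : φ x ≠ v := fun h' => h ⟨x, h'⟩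
    have hy : φ y ≠ v := fun h' => h ⟨y, h'⟩
    have hne : φ x ≠ φ y := fun h' => hxy.ne (hi h')
    simp only [Function.comp_apply, upd, nb, Set.mem_ofPred_eq]
    by_cases h1 : φ x = v'
    · have h2 : φ y ≠ v' := fun h' => hne (h1.trans h'.symm)
      rw [h1, Equiv.swap_apply_right, Equiv.swap_apply_of_ne_of_ne hy h2]
      simp [hy]
    · by_cases h2 : φ y = v'
      · rw [h2, Equiv.swap_apply_right, Equiv.swap_apply_of_ne_of_ne hx h1]
        simp [hx, G.adj_comm]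
      · rw [Equiv.swap_apply_of_ne_of_ne hx h1, Equiv.swap_apply_of_ne_of_ne hy h2]
        simp [hx, hy]
  constructor
  · rintro ⟨h1, h2, h3, h4, h5⟩
    exact ⟨hinj.2 h1, fun x y hxy => (hadj h4 h1 x y hxy).1 (h2 x y hxy), hAt.2 h3, hr.2 h4,
      hZ.2 h5⟩
  · rintro ⟨h1, h2, h3, h4, h5⟩
    exact ⟨hinj.1 h1, fun x y hxy => (hadj (hr.1 h4) (hinj.1 h1) x y hxy).2 (h2 x y hxy),
      hAt.1 h3, hr.1 h4, hZ.1 h5⟩

/-- **Job DIFF.** -/
theorem stDiff : StDiff := by
  intro X V _ _ F G R Z v v' hv hvZ hv'Z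
  constructor
  · have h1 : D F G R Z v = mu F G (E1 R Z v v') + mu F G (E2 R Z v v') := by
      unfold D
      rw [mu_split F G _ (fun φ => v' ∈ Set.range φ)]
      congr 1
      · exact mu_congr fun φ => ⟨fun ⟨⟨a, b⟩, c⟩ => ⟨a, c, b⟩, fun ⟨a, c, b⟩ => ⟨⟨a, b⟩, c⟩⟩
      · exact mu_congr fun φ => ⟨fun ⟨⟨a, b⟩, c⟩ => ⟨a, c, b⟩, fun ⟨a, c, b⟩ => ⟨⟨a, b⟩, c⟩⟩
    have h2 : D F G R Z v' = mu F G (E1 R Z v' v) + mu F G (E2 R Z v' v) := by
      unfold D
      rw [mu_split F G _ (fun φ => v ∈ Set.range φ)]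
      congr 1
      · exact mu_congr fun φ => ⟨fun ⟨⟨a, b⟩, c⟩ => ⟨a, c, b⟩, fun ⟨a, c, b⟩ => ⟨⟨a, b⟩, c⟩⟩
      · exact mu_congr fun φ => ⟨fun ⟨⟨a, b⟩, c⟩ => ⟨a, c, b⟩, fun ⟨a, c, b⟩ => ⟨⟨a, b⟩, c⟩⟩
    rw [h1, h2, mu_E1_swap F G R Z hv hvZ hv'Z, upd_self]
    ring
  · refine mu_congr fun φ => ?_
    have h : ∀ w : V, At (Set.univ : Set X) w φ ↔ w ∈ Set.range φ := fun w =>
      ⟨fun ⟨x, _, hx⟩ => ⟨x, hx⟩, fun ⟨x, hx⟩ => ⟨x, Set.mem_univ _, hx⟩⟩
    unfold E2
    rw [h, h]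
    tauto

open Classical in
/-- **Job BOTH1.** -/
theorem stBoth1 (hUB : StUB) : StBoth1 := by
  intro X V _ _ F G R Z v v' hv hvZ hv'Z
  have : Nonempty V := ⟨v⟩
  set τ := Equiv.swap v v' with hτ
  rw [mu_split F G (E2 R Z v v') (fun φ => ∃ c ∈ sd G v v', c ∈ Set.range φ)]
  refine add_le_add ?_ ?_
  · refine mu_mono' τ fun φ hφ => ?_
    obtain ⟨hinj, hadj, ⟨⟨r, hr, hrv⟩, ⟨x', hx'⟩, hZ⟩, hbad⟩ := hφ
    refine ⟨τ.injective.comp hinj, fun x y hxy => ?_, ⟨r, hr, ?_⟩, ⟨x', ?_⟩, ?_⟩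
    · have h1 := hadj x y hxy
      have hne : φ x ≠ φ y := h1.ne
      have hk : ∀ c, c ∈ Set.range φ → c ≠ v → c ≠ v' → (G.Adj v c ↔ G.Adj v' c) := by
        intro c hc h2 h3
        by_contra h4
        exact hbad ⟨c, ⟨h2, h3, h4⟩, hc⟩
      show G.Adj (τ (φ x)) (τ (φ y))
      by_cases hxv : φ x = v
      · by_cases hyv : φ y = v'
        · rw [hxv, hyv, hτ, Equiv.swap_apply_left, Equiv.swap_apply_right]
          rw [hxv, hyv] at h1
          exact h1.symm
        · have hyv2 : φ y ≠ v := fun h => hne (hxv.trans h.symm)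
          rw [hxv, hτ, Equiv.swap_apply_left, Equiv.swap_apply_of_ne_of_ne hyv2 hyv]
          rw [hxv] at h1
          exact (hk _ ⟨y, rfl⟩ hyv2 hyv).1 h1
      · by_cases hxv' : φ x = v'
        · by_cases hyv : φ y = v
          · rw [hxv', hyv, hτ, Equiv.swap_apply_left, Equiv.swap_apply_right]
            rw [hxv', hyv] at h1
            exact h1.symm
          · have hyv2 : φ y ≠ v' := fun h => hne (hxv'.trans h.symm)
            rw [hxv', hτ, Equiv.swap_apply_right, Equiv.swap_apply_of_ne_of_ne hyv hyv2]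
            rw [hxv'] at h1
            exact (hk _ ⟨y, rfl⟩ hyv hyv2).2 h1
        · rw [hτ, Equiv.swap_apply_of_ne_of_ne hxv hxv']
          by_cases hyv : φ y = v
          · rw [hyv, Equiv.swap_apply_left]
            rw [hyv] at h1
            exact ((hk _ ⟨x, rfl⟩ hxv hxv').1 h1.symm).symm
          · by_cases hyv' : φ y = v'
            · rw [hyv', Equiv.swap_apply_right]
              rw [hyv'] at h1
              exact ((hk _ ⟨x, rfl⟩ hxv hxv').2 h1.symm).symm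
            · rw [Equiv.swap_apply_of_ne_of_ne hyv hyv']
              exact h1
    · show τ (φ r) = v'
      rw [hrv, hτ, Equiv.swap_apply_left]
    · show τ (φ x') = v
      rw [hx', hτ, Equiv.swap_apply_right]
    · intro z hz hr'
      obtain ⟨x, hx⟩ := hr'
      have h1 : z ≠ v := fun h => hvZ (h ▸ hz)
      have h2 : z ≠ v' := fun h => hv'Z (h ▸ hz)
      refine hZ z hz ⟨x, ?_⟩
      have := congrArg τ hx
      simp only [Function.comp_apply, hτ, Equiv.swap_apply_self] at this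
      rw [this, Equiv.swap_apply_of_ne_of_ne h1 h2]
  · have h := (hUB X V F G (fun φ => E2 R Z v v' φ ∧ ∃ c ∈ sd G v v', c ∈ Set.range φ)
      {v, v'}).2 (sd G v v') (by
        rintro φ - ⟨⟨⟨x, _, hx⟩, hv', _⟩, c, hc, hcr⟩
        refine ⟨?_, c, hc, ?_, hcr⟩
        · intro a ha
          rcases Finset.mem_insert.1 ha with rfl | ha
          · exact ⟨x, hx⟩
          · rw [Finset.mem_singleton.1 ha]
            exact hv'
        · intro hc'
          rcases Finset.mem_insert.1 hc' with h | h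
          · exact hc.1 h
          · exact hc.2.1 (Finset.mem_singleton.1 h))
    rw [Finset.card_pair hv] at h
    exact h

end Pool.Agent.K7.H81.UI
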